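import Mathlib

/-!
Project MK (MP_83fd13_an, Schiffer's conjecture on Minkowski pencils `K + t L`).

Statements of the building blocks. A `C²`, `2π`-periodic function `h` is regarded as a support
function; `Om h` is the open convex set with support function `h` (if `h + h'' > 0`).
-/

set_option autoImplicit false

namespace Pool.Agent.Y278.MK

open MeasureTheory Set Real Filter Topology
open scoped FourierTransform ContDiff

/-- the overdetermined problem (S) has a nontrivial weak solution (verbatim as in the starting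
files of MP_83fd13_an) -/
def Solvable (Ω : Set ℂ) (lam : ℝ) : Prop :=
  ∃ (c : ℝ) (u : ℂ → ℝ) (G : ℂ → ℂ),
    MemLp u 2 (volume.restrict Ω) ∧ MemLp G 2 (volume.restrict Ω) ∧
    (∀ φ : ℂ → ℝ, ContDiff ℝ 1 φ → HasCompactSupport φ → ∀ v : ℂ,
      ∫ x in Ω, (u x - c) * (fderiv ℝ φ x v) = - ∫ x in Ω, @inner ℝ ℂ _ (G x) v * φ x) ∧
    (∀ φ : ℂ → ℝ, ContDiff ℝ 1 φ → HasCompactSupport φ →
      ∫ x in Ω, fderiv ℝ φ x (G x) = lam * ∫ x in Ω, u x * φ x) ∧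
    ¬ (u =ᵐ[volume.restrict Ω] 0)

/-- `C²` and `2π`-periodic -/
def C2P (h : ℝ → ℝ) : Prop := ContDiff ℝ 2 h ∧ ∀ x, h (x + 2 * π) = h x

/-- the radius of curvature `h + h''` -/
noncomputable def rho (h : ℝ → ℝ) (x : ℝ) : ℝ := h x + deriv (deriv h) x

/-- first coordinate of the boundary point with normal `(cos x, sin x)` -/
noncomputable def yy (h : ℝ → ℝ) (x : ℝ) : ℝ := h x * cos x - deriv h x * sin x

/-- the open convex set with support function `h` -/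
def Om (h : ℝ → ℝ) : Set ℂ := {x | ∀ θ : ℝ, x.re * cos θ + x.im * sin θ < h θ}

/-- the area, as a quadratic functional of the support function -/
noncomputable def area (h : ℝ → ℝ) : ℝ := (1 / 2) * ∫ θ in (0 : ℝ)..(2 * π), h θ * rho h θ

/-- `E(z) = ∫_0^1 r e^{rz} dr = (e^z (z - 1) + 1) / z²` -/
noncomputable def EE (z : ℂ) : ℂ := ∫ r in (0 : ℝ)..1, (r : ℂ) * Complex.exp (r * z)

/-- the entire function of `(κ, t)` which for `t > 0`, `κ` real is `∫_{K + tL} e^{iκ x₁} dx` -/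
noncomputable def ff (h k : ℝ → ℝ) (κ t : ℂ) : ℂ :=
  ∫ θ in (0 : ℝ)..(2 * π), EE (Complex.I * κ * (yy h θ + t * yy k θ)) *
    ((h θ + t * k θ) * (rho h θ + t * rho k θ))

/-- open convex sets between two discs with centre `0` -/
structure Good (r0 R : ℝ) (Ω : Set ℂ) : Prop where
  op : IsOpen Ω
  conv : Convex ℝ Ω
  inn : Metric.ball 0 r0 ⊆ Ω
  out : Ω ⊆ Metric.ball 0 R

/-- a good representative `W` of `(u - c) / c`, extended by zero -/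
structure Rep (Ω : Set ℂ) (lam C : ℝ) (W : ℂ → ℂ) : Prop where
  cont : Continuous W
  off : ∀ x, x ∉ Ω → W x = 0
  hol : ∀ x y, ‖W x - W y‖ ≤ C * √‖x - y‖
  fint : Integrable (𝓕 W)
  rel : ∀ ξ : ℂ, ((4 * π ^ 2 * ‖ξ‖ ^ 2 - lam : ℝ) : ℂ) * 𝓕 W ξ =
    (lam : ℂ) * 𝓕 (Ω.indicator fun _ => (1 : ℂ)) ξ

/-- AREA: the Fourier transform of the indicator as a boundary integral -/
def S_AREA : Prop :=
  ∀ h : ℝ → ℝ, C2P h → (∀ θ, 0 < h θ) → (∀ θ, 0 < rho h θ) → ∀ κ : ℝ,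
    ∫ x in Om h, Complex.exp (Complex.I * (κ * x.re)) =
      ∫ θ in (0 : ℝ)..(2 * π), EE (Complex.I * κ * yy h θ) * (h θ * rho h θ)

/-- HOL: existence of the representative with a uniform Hoelder constant -/
def S_HOL : Prop :=
  ∀ r0 R L0 L1 : ℝ, 0 < r0 → 0 < R → 0 < L0 → ∃ C : ℝ, 0 < C ∧
    ∀ (Ω : Set ℂ) (lam : ℝ), Good r0 R Ω → L0 ≤ lam → lam ≤ L1 → Solvable Ω lam →
      ∃ W : ℂ → ℂ, Rep Ω lam C W

/-- CRS: the cross identity for two domains with the same eigenvalue -/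
def S_CRS : Prop :=
  ∀ (r0 R lam C : ℝ) (Ω Ω' : Set ℂ) (W W' : ℂ → ℂ), 0 < lam → Good r0 R Ω → Good r0 R Ω' →
    Rep Ω lam C W → Rep Ω' lam C W' → ∫ x in Ω', W x = ∫ x in Ω, W' x

/-- CMP: two close Schiffer domains with the same eigenvalue have almost the same area -/
def S_CMP : Prop :=
  ∀ r0 R L0 L1 : ℝ, 0 < r0 → 0 < R → 0 < L0 → ∃ C : ℝ, 0 < C ∧
    ∀ (Ω Ω' : Set ℂ) (lam δ : ℝ), Good r0 R Ω → Good r0 R Ω' → L0 ≤ lam → lam ≤ L1 →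
      Solvable Ω lam → Solvable Ω' lam → 0 ≤ δ → δ ≤ 1 →
      (∀ x ∈ Ω, (1 + δ)⁻¹ • x ∈ Ω') → (∀ x ∈ Ω', (1 + δ)⁻¹ • x ∈ Ω) →
      |(volume Ω).toReal - (volume Ω').toReal| ≤ C * (δ * √δ)

/-- SCALE: dilation invariance -/
def S_SCALE : Prop :=
  ∀ (Ω : Set ℂ) (lam r : ℝ), MeasurableSet Ω → 0 < r → Solvable Ω lam →
    Solvable {x | r⁻¹ • x ∈ Ω} (lam / r ^ 2)

/-- QC: along the pencil, `lam * area` varies very little -/
def S_QC : Prop :=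
  ∀ h k : ℝ → ℝ, C2P h → C2P k → (∀ θ, 0 ≤ h θ) → (∀ θ, 0 < k θ) → (∀ θ, 0 ≤ rho h θ) →
    (∀ θ, 0 < rho k θ) → ∀ T0 T1 L0 L1 : ℝ, 0 < T0 → 0 < L0 → ∃ C : ℝ, 0 < C ∧
    ∀ s t lam mu : ℝ, T0 ≤ s → s ≤ T1 → T0 ≤ t → t ≤ T1 → L0 ≤ lam → lam ≤ L1 → L0 ≤ mu →
      mu ≤ L1 → Solvable (Om fun θ => h θ + t * k θ) lam →
      Solvable (Om fun θ => h θ + s * k θ) mu →
      |mu * area (fun θ => h θ + s * k θ) - lam * area (fun θ => h θ + t * k θ)| ≤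
        C * ((|s - t| + |mu - lam|) * √(|s - t| + |mu - lam|))

/-- FFS: `ff` is smooth in the complex sense -/
def S_FFS : Prop :=
  ∀ h k : ℝ → ℝ, C2P h → C2P k → ContDiff ℂ ∞ (fun p : ℂ × ℂ => ff h k p.1 p.2)

/-- PS: a smooth function of `(q, t)` which vanishes on a set that accumulates at each of its points
in the direction of the `t`-axis has all `t`-derivatives zero there -/
def S_PS : Prop :=
  ∀ (D : Set (ℝ × ℝ)) (G : ℝ × ℝ → ℂ) (U : Set (ℝ × ℝ)), IsOpen D → ContDiffOn ℝ ∞ G D →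
    U ⊆ D → (∀ u ∈ U, G u = 0) →
    (∀ u ∈ U, ∀ ε : ℝ, 0 < ε → ∃ v ∈ U, 0 < |v.2 - u.2| ∧ |v.2 - u.2| < ε ∧
      |v.1 - u.1| ≤ ε * |v.2 - u.2|) →
    ∀ u ∈ U, ∀ n : ℕ, iteratedDeriv n (fun t => G (u.1, t)) u.2 = 0

/-- CNT: an uncountable subset of the plane contains a nonempty subset without isolated points -/
def S_CNT : Prop :=
  ∀ U : Set (ℝ × ℝ), ¬ U.Countable → ∃ U' ⊆ U, U'.Nonempty ∧
    ∀ u ∈ U', ∀ ε : ℝ, 0 < ε → ∃ v ∈ U', v ≠ u ∧ |v.1 - u.1| < ε ∧ |v.2 - u.2| < ε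

/-- ZW: hedgehogs of width zero in the direction of the `x`-axis -/
def S_ZW : Prop :=
  ∀ g : ℝ → ℝ, C2P g → g 0 + g π = 0 → (¬ ∃ a b : ℝ, ∀ θ, g θ = a * cos θ + b * sin θ) →
    area g < 0 ∧ ∀ κ : ℝ, κ ≠ 0 →
      ∫ θ in (0 : ℝ)..(2 * π), EE ((κ * yy g θ : ℝ) : ℂ) * (g θ * rho g θ) ≠ 0

/-- END: the analytic continuation argument -/
def S_END : Prop :=
  ∀ h k : ℝ → ℝ, C2P h → C2P k → (∀ θ, 0 ≤ h θ) → (∀ θ, 0 < k θ) → (∀ θ, 0 ≤ rho h θ) →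
    (∀ θ, 0 < rho k θ) →
    (¬ ∃ a b c : ℝ, ∀ θ, h θ = a * k θ + b * cos θ + c * sin θ) →
    ∀ q t1 : ℝ, 0 < q → 0 < t1 →
      ¬ ∀ᶠ t : ℝ in 𝓝 t1,
        ff h k ((√(q / area (fun θ => h θ + t * k θ)) : ℝ) : ℂ) (t : ℂ) = 0

/-- MINK: the open set with support function `h + t k` is the interior of `K + t L` -/
def S_MINK : Prop :=
  ∀ (K L : Set ℂ) (h k : ℝ → ℝ) (t : ℝ), IsCompact K → Convex ℝ K → K.Nonempty →
    IsCompact L → Convex ℝ L → L.Nonempty → 0 < t →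
    (∀ θ : ℝ, IsGreatest ((fun x : ℂ => x.re * cos θ + x.im * sin θ) '' K) (h θ)) →
    (∀ θ : ℝ, IsGreatest ((fun x : ℂ => x.re * cos θ + x.im * sin θ) '' L) (k θ)) →
    interior {z : ℂ | ∃ x ∈ K, ∃ y ∈ L, z = x + t • y} = Om fun θ => h θ + t * k θ

/-- RHO: the radius of curvature of a support function is nonnegative -/
def S_RHO : Prop :=
  ∀ (K : Set ℂ) (h : ℝ → ℝ), ContDiff ℝ 2 h →
    (∀ θ : ℝ, IsGreatest ((fun x : ℂ => x.re * cos θ + x.im * sin θ) '' K) (h θ)) →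
    C2P h ∧ ∀ θ, 0 ≤ rho h θ

end Pool.Agent.Y278.MK
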