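import Mathlib
import Pool.Agent.Y278.MK.Stm

/-!
Project MK, more general forms of QC and END (all lines in the space of `C²` support functions).
-/

set_option autoImplicit false

namespace Pool.Agent.Y278.MK

open MeasureTheory Set Real Filter Topology
open scoped FourierTransform ContDiff

/-- QCL: near a Schiffer domain of the line `h + s k`, `mu * area` varies very little (local form,
no positivity of `k`) -/
def S_QCL : Prop :=
  ∀ (h k : ℝ → ℝ) (lam : ℝ), C2P h → C2P k → (∀ θ, 0 < h θ) → (∀ θ, 0 < rho h θ) → 0 < lam →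
    Solvable (Om h) lam → ∃ C ε : ℝ, 0 < C ∧ 0 < ε ∧
    ∀ s mu : ℝ, |s| ≤ ε → |mu - lam| ≤ ε → Solvable (Om fun θ => h θ + s * k θ) mu →
      |mu * area (fun θ => h θ + s * k θ) - lam * area h| ≤
        C * ((|s| + |mu - lam|) * √(|s| + |mu - lam|))

/-- ENDW: the analytic continuation argument, when the width of `k` in the direction of the
`x`-axis is not zero (no positivity of `h`, `k`) -/
def S_ENDW : Prop :=
  ∀ h k : ℝ → ℝ, C2P h → C2P k → k 0 + k π ≠ 0 →
    (¬ ∃ a b c : ℝ, ∀ θ, h θ = a * k θ + b * cos θ + c * sin θ) →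
    ∀ q t1 : ℝ, 0 < q → 0 < area (fun θ => h θ + t1 * k θ) →
      ¬ ∀ᶠ t : ℝ in 𝓝 t1,
        ff h k ((√(q / area (fun θ => h θ + t * k θ)) : ℝ) : ℂ) (t : ℂ) = 0

/-- ENDG: the same for all lines which do not meet the space of point bodies -/
def S_ENDG : Prop :=
  ∀ h k : ℝ → ℝ, C2P h → C2P k →
    (∀ a b c d : ℝ, (∀ θ, a * h θ + b * k θ = c * cos θ + d * sin θ) → a = 0 ∧ b = 0) →
    ∀ q t1 : ℝ, 0 < q → 0 < area (fun θ => h θ + t1 * k θ) →
      ¬ ∀ᶠ t : ℝ in 𝓝 t1,
        ff h k ((√(q / area (fun θ => h θ + t * k θ)) : ℝ) : ℂ) (t : ℂ) = 0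

end Pool.Agent.Y278.MK
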