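import Mathlib
import Pool.Agent.Y278.MK.Stm2

/-!
Project MK: elementary facts about `C2P`, `Om`, `rho`, `yy`, `area`, `ff`.
-/

set_option autoImplicit false

namespace Pool.Agent.Y278.MK

open MeasureTheory Set Real Filter Topology
open scoped ContDiff

theorem per_min {u : ℝ → ℝ} (hu : Continuous u) (pu : ∀ x, u (x + 2 * π) = u x)
    (hpos : ∀ θ, 0 < u θ) : ∃ m : ℝ, 0 < m ∧ ∀ θ, m ≤ u θ := by
  have hp : Function.Periodic u (2 * π) := pu
  have hne : (Icc (0 : ℝ) (2 * π)).Nonempty := ⟨0, by constructor <;> positivity⟩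
  obtain ⟨x0, hx0, hmin⟩ := isCompact_Icc.exists_isMinOn hne hu.continuousOn
  refine ⟨u x0, hpos x0, fun θ => ?_⟩
  obtain ⟨y, hy, hyu⟩ := hp.exists_mem_Ico₀ (by positivity) θ
  rw [hyu]
  exact hmin ⟨hy.1, hy.2.le⟩

theorem per_bdd {u : ℝ → ℝ} (hu : Continuous u) (pu : ∀ x, u (x + 2 * π) = u x) :
    ∃ M : ℝ, 0 < M ∧ ∀ θ, |u θ| ≤ M := by
  have hp : Function.Periodic u (2 * π) := pu
  obtain ⟨M, hM⟩ := (isCompact_Icc (a := (0 : ℝ)) (b := 2 * π)).exists_bound_of_continuousOn
    hu.continuousOn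
  refine ⟨|M| + 1, by positivity, fun θ => ?_⟩
  obtain ⟨y, hy, hyu⟩ := hp.exists_mem_Ico₀ (by positivity) θ
  rw [hyu]
  have h1 := hM y ⟨hy.1, hy.2.le⟩
  rw [Real.norm_eq_abs] at h1
  linarith [le_abs_self M]

namespace C2P

variable {h k : ℝ → ℝ}

theorem diff (hh : C2P h) : Differentiable ℝ h := hh.1.differentiable (by norm_num)

theorem cont (hh : C2P h) : Continuous h := hh.1.continuous

theorem dc (hh : C2P h) : ContDiff ℝ 1 (deriv h) :=
  ((contDiff_succ_iff_deriv (n := 1)).1 (by simpa [one_add_one_eq_two] using hh.1)).2.2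

theorem dcont (hh : C2P h) : Continuous (deriv h) := hh.dc.continuous

theorem ddiff (hh : C2P h) : Differentiable ℝ (deriv h) := hh.dc.differentiable (by norm_num)

theorem ddc (hh : C2P h) : Continuous (deriv (deriv h)) := hh.dc.continuous_deriv (by norm_num)

theorem dper (hh : C2P h) (x : ℝ) : deriv h (x + 2 * π) = deriv h x := by
  rw [← deriv_comp_add_const h (2 * π) x]
  congr 1
  funext y
  exact hh.2 y

theorem ddper (hh : C2P h) (x : ℝ) : deriv (deriv h) (x + 2 * π) = deriv (deriv h) x := by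
  rw [← deriv_comp_add_const (deriv h) (2 * π) x]
  congr 1
  funext y
  exact hh.dper y

theorem rho_cont (hh : C2P h) : Continuous (rho h) := hh.cont.add hh.ddc

theorem rho_per (hh : C2P h) (x : ℝ) : rho h (x + 2 * π) = rho h x := by
  unfold rho
  rw [hh.2, hh.ddper]

theorem yy_cont (hh : C2P h) : Continuous (yy h) :=
  (hh.cont.mul continuous_cos).sub (hh.dcont.mul continuous_sin)

theorem add (hh : C2P h) (hk : C2P k) (s t : ℝ) : C2P (fun θ => s * h θ + t * k θ) := by
  refine ⟨(contDiff_const.mul hh.1).add (contDiff_const.mul hk.1), fun x => ?_⟩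
  simp only [hh.2, hk.2]

theorem line (hh : C2P h) (hk : C2P k) (t : ℝ) : C2P (fun θ => h θ + t * k θ) := by
  have h1 := hh.add hk 1 t
  simpa using h1

theorem cs (b c : ℝ) : C2P (fun θ => b * cos θ + c * sin θ) := by
  refine ⟨(contDiff_const.mul contDiff_cos).add (contDiff_const.mul contDiff_sin), fun x => ?_⟩
  simp only [cos_add_two_pi, sin_add_two_pi]

end C2P

theorem deriv_cs (b c : ℝ) :
    deriv (fun θ => b * cos θ + c * sin θ) = fun θ => c * cos θ + (-b) * sin θ := by
  funext x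
  have h1 : HasDerivAt (fun θ => b * cos θ + c * sin θ) (b * (-sin x) + c * cos x) x :=
    ((hasDerivAt_cos x).const_mul b).add ((hasDerivAt_sin x).const_mul c)
  rw [h1.deriv]
  ring

theorem rho_cs (b c : ℝ) (x : ℝ) : rho (fun θ => b * cos θ + c * sin θ) x = 0 := by
  unfold rho
  rw [deriv_cs, deriv_cs]
  ring

section lin

variable {h k : ℝ → ℝ}

theorem deriv_lin (hh : C2P h) (hk : C2P k) (s t : ℝ) :
    deriv (fun θ => s * h θ + t * k θ) = fun θ => s * deriv h θ + t * deriv k θ := by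
  funext x
  have h1 : HasDerivAt (fun θ => s * h θ + t * k θ) (s * deriv h x + t * deriv k x) x :=
    ((hh.diff x).hasDerivAt.const_mul s).add ((hk.diff x).hasDerivAt.const_mul t)
  exact h1.deriv

theorem deriv2_lin (hh : C2P h) (hk : C2P k) (s t : ℝ) :
    deriv (deriv (fun θ => s * h θ + t * k θ)) =
      fun θ => s * deriv (deriv h) θ + t * deriv (deriv k) θ := by
  rw [deriv_lin hh hk]
  funext x
  have h1 : HasDerivAt (fun θ => s * deriv h θ + t * deriv k θ)
      (s * deriv (deriv h) x + t * deriv (deriv k) x) x :=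
    ((hh.ddiff x).hasDerivAt.const_mul s).add ((hk.ddiff x).hasDerivAt.const_mul t)
  exact h1.deriv

theorem rho_lin (hh : C2P h) (hk : C2P k) (s t x : ℝ) :
    rho (fun θ => s * h θ + t * k θ) x = s * rho h x + t * rho k x := by
  unfold rho
  rw [deriv2_lin hh hk]
  ring

theorem yy_lin (hh : C2P h) (hk : C2P k) (s t x : ℝ) :
    yy (fun θ => s * h θ + t * k θ) x = s * yy h x + t * yy k x := by
  unfold yy
  rw [deriv_lin hh hk]
  ring

theorem rho_line (hh : C2P h) (hk : C2P k) (t x : ℝ) :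
    rho (fun θ => h θ + t * k θ) x = rho h x + t * rho k x := by
  have h1 := rho_lin hh hk 1 t x
  simpa using h1

theorem yy_line (hh : C2P h) (hk : C2P k) (t x : ℝ) :
    yy (fun θ => h θ + t * k θ) x = yy h x + t * yy k x := by
  have h1 := yy_lin hh hk 1 t x
  simpa using h1

/-- the value of the Fourier transform, as a functional of the support function -/
noncomputable def FF (g : ℝ → ℝ) (κ : ℝ) : ℂ :=
  ∫ θ in (0 : ℝ)..(2 * π), EE (Complex.I * κ * yy g θ) * (g θ * rho g θ)

theorem ff_eq (hh : C2P h) (hk : C2P k) (κ t : ℝ) :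
    ff h k κ t = FF (fun θ => h θ + t * k θ) κ := by
  unfold ff FF
  apply intervalIntegral.integral_congr
  intro θ _
  simp only [yy_line hh hk, rho_line hh hk]
  push_cast
  ring_nf

theorem FF_smul (hg : C2P h) (c κ : ℝ) :
    FF (fun θ => c * h θ) κ = (c : ℂ) ^ 2 * FF h (c * κ) := by
  have e1 : ∀ x, yy (fun θ => c * h θ) x = c * yy h x := by
    intro x
    have := yy_lin hg hg c 0 x
    simpa using this
  have e2 : ∀ x, rho (fun θ => c * h θ) x = c * rho h x := by
    intro x
    have := rho_lin hg hg c 0 x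
    simpa using this
  unfold FF
  rw [← intervalIntegral.integral_const_mul]
  apply intervalIntegral.integral_congr
  intro θ _
  simp only [e1, e2]
  push_cast
  ring_nf

theorem area_smul (hg : C2P h) (c : ℝ) : area (fun θ => c * h θ) = c ^ 2 * area h := by
  have e2 : ∀ x, rho (fun θ => c * h θ) x = c * rho h x := by
    intro x
    have := rho_lin hg hg c 0 x
    simpa using this
  unfold area
  have : ∫ θ in (0 : ℝ)..(2 * π), c * h θ * rho (fun θ => c * h θ) θ =
      c ^ 2 * ∫ θ in (0 : ℝ)..(2 * π), h θ * rho h θ := by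
    rw [← intervalIntegral.integral_const_mul]
    apply intervalIntegral.integral_congr
    intro θ _
    simp only [e2]
    ring
  rw [this]
  ring

theorem area_line (hh : C2P h) (hk : C2P k) : ∃ a b c : ℝ, ∀ t : ℝ,
    area (fun θ => h θ + t * k θ) = a + b * t + c * t ^ 2 := by
  have i1 : IntervalIntegrable (fun θ => h θ * rho h θ) volume 0 (2 * π) :=
    (hh.cont.mul hh.rho_cont).intervalIntegrable _ _
  have i2 : IntervalIntegrable (fun θ => h θ * rho k θ + k θ * rho h θ) volume 0 (2 * π) :=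
    ((hh.cont.mul hk.rho_cont).add (hk.cont.mul hh.rho_cont)).intervalIntegrable _ _
  have i3 : IntervalIntegrable (fun θ => k θ * rho k θ) volume 0 (2 * π) :=
    (hk.cont.mul hk.rho_cont).intervalIntegrable _ _
  refine ⟨(1 / 2) * ∫ θ in (0 : ℝ)..(2 * π), h θ * rho h θ,
    (1 / 2) * ∫ θ in (0 : ℝ)..(2 * π), (h θ * rho k θ + k θ * rho h θ),
    (1 / 2) * ∫ θ in (0 : ℝ)..(2 * π), k θ * rho k θ, fun t => ?_⟩
  unfold area
  have : ∫ θ in (0 : ℝ)..(2 * π), (h θ + t * k θ) * rho (fun θ => h θ + t * k θ) θ =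
      (∫ θ in (0 : ℝ)..(2 * π), h θ * rho h θ) +
      t * (∫ θ in (0 : ℝ)..(2 * π), (h θ * rho k θ + k θ * rho h θ)) +
      t ^ 2 * ∫ θ in (0 : ℝ)..(2 * π), k θ * rho k θ := by
    rw [← intervalIntegral.integral_const_mul, ← intervalIntegral.integral_const_mul,
      ← intervalIntegral.integral_add i1 (i2.const_mul t),
      ← intervalIntegral.integral_add (i1.add (i2.const_mul t)) (i3.const_mul (t ^ 2))]
    apply intervalIntegral.integral_congr
    intro θ _
    simp only [rho_line hh hk]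
    ring
  rw [this]
  ring

theorem area_pos (hh : C2P h) (h0 : ∀ θ, 0 < h θ) (h1 : ∀ θ, 0 < rho h θ) : 0 < area h := by
  unfold area
  have : 0 < ∫ θ in (0 : ℝ)..(2 * π), h θ * rho h θ :=
    intervalIntegral.intervalIntegral_pos_of_pos
      ((hh.cont.mul hh.rho_cont).intervalIntegrable _ _) (fun θ => mul_pos (h0 θ) (h1 θ))
      (by positivity)
  positivity

end lin

section om

variable {g : ℝ → ℝ}

theorem proj_le (x : ℂ) (θ : ℝ) : x.re * cos θ + x.im * sin θ ≤ ‖x‖ := by
  have h1 : (x.re * cos θ + x.im * sin θ) ^ 2 ≤ ‖x‖ ^ 2 := by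
    rw [← Complex.normSq_eq_norm_sq, Complex.normSq_apply]
    have h2 := sin_sq_add_cos_sq θ
    nlinarith [sq_nonneg (x.re * sin θ - x.im * cos θ)]
  exact le_trans (le_abs_self _) (abs_le_of_sq_le_sq h1 (norm_nonneg _))

theorem Om_open (hg : C2P g) : IsOpen (Om g) := by
  rw [Metric.isOpen_iff]
  intro x hx
  have hper : ∀ θ, g (θ + 2 * π) - (x.re * cos (θ + 2 * π) + x.im * sin (θ + 2 * π)) =
      g θ - (x.re * cos θ + x.im * sin θ) := by
    intro θ
    rw [hg.2, cos_add_two_pi, sin_add_two_pi]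
  obtain ⟨m, hm, hmin⟩ := per_min (u := fun θ => g θ - (x.re * cos θ + x.im * sin θ))
    (hg.cont.sub ((continuous_const.mul continuous_cos).add
      (continuous_const.mul continuous_sin))) hper (fun θ => sub_pos.2 (hx θ))
  refine ⟨m, hm, fun y hy θ => ?_⟩
  rw [mem_ball_iff_norm] at hy
  have h1 := proj_le (y - x) θ
  have h2 := hmin θ
  simp only [Complex.sub_re, Complex.sub_im] at h1
  nlinarith

theorem Om_bdd (g : ℝ → ℝ) : Bornology.IsBounded (Om g) := by
  rw [isBounded_iff_forall_norm_le]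
  refine ⟨|g 0| + |g π| + (|g (π / 2)| + |g (-(π / 2))|), fun x hx => ?_⟩
  have h1 := hx 0
  have h2 := hx π
  have h3 := hx (π / 2)
  have h4 := hx (-(π / 2))
  simp only [cos_zero, sin_zero, cos_pi, sin_pi, cos_pi_div_two, sin_pi_div_two, cos_neg,
    sin_neg, mul_one, mul_zero, add_zero, zero_add, mul_neg] at h1 h2 h3 h4
  have h5 : |x.re| ≤ |g 0| + |g π| := by
    rw [abs_le]
    constructor <;> linarith [le_abs_self (g 0), le_abs_self (g π), abs_nonneg (g 0),
      abs_nonneg (g π)]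
  have h6 : |x.im| ≤ |g (π / 2)| + |g (-(π / 2))| := by
    rw [abs_le]
    constructor <;> linarith [le_abs_self (g (π / 2)), le_abs_self (g (-(π / 2))),
      abs_nonneg (g (π / 2)), abs_nonneg (g (-(π / 2)))]
  have h7 := Complex.norm_le_abs_re_add_abs_im x
  linarith

theorem Om_trans (g : ℝ → ℝ) (p : ℂ) : (fun x : ℂ => x + p) ⁻¹' Om g =
    Om (fun θ => g θ - (p.re * cos θ + p.im * sin θ)) := by
  ext x
  simp only [Om, mem_preimage, mem_ofPred_eq, Complex.add_re, Complex.add_im]
  refine forall_congr' fun θ => ?_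
  constructor <;> intro h <;> linarith

theorem open_pos {u v : ℝ → ℝ} (hu : Continuous u) (hv : Continuous v)
    (pu : ∀ x, u (x + 2 * π) = u x) (pv : ∀ x, v (x + 2 * π) = v x) :
    IsOpen {t : ℝ | ∀ θ, 0 < u θ + t * v θ} := by
  rw [Metric.isOpen_iff]
  intro t ht
  obtain ⟨m, hm, hmin⟩ := per_min (u := fun θ => u θ + t * v θ)
    (hu.add (continuous_const.mul hv)) (fun θ => by simp only [pu, pv]) ht
  obtain ⟨M, hM, hbd⟩ := per_bdd hv pv
  refine ⟨m / M, by positivity, fun s hs θ => ?_⟩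
  rw [mem_ball_iff_norm, Real.norm_eq_abs, lt_div_iff₀ hM] at hs
  have h1 : |(s - t) * v θ| ≤ |s - t| * M := by
    rw [abs_mul]
    exact mul_le_mul_of_nonneg_left (hbd θ) (abs_nonneg _)
  have h2 := (abs_le.1 h1).1
  have h3 := hmin θ
  have h4 : u θ + s * v θ = (u θ + t * v θ) + (s - t) * v θ := by ring
  rw [h4]
  linarith

end om

end Pool.Agent.Y278.MK
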