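import Mathlib
import Pool.Agent.Y278.MK.Geo

/-!
Project MK: the analytic continuation argument for all lines.
-/

set_option autoImplicit false

namespace Pool.Agent.Y278.MK

open MeasureTheory Set Real Filter Topology
open scoped ContDiff

theorem half_sq (z : ℂ) : (z ^ ((1 / 2 : ℝ) : ℂ)) ^ 2 = z := by
  rw [← Complex.cpow_mul_nat]
  norm_num

theorem quad_countable {a b c t1 : ℝ} (hA1 : 0 < a + b * t1 + c * t1 ^ 2) :
    {t : ℂ | (a : ℂ) + b * t + c * t ^ 2 = 0}.Countable := by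
  have hp : (Polynomial.C (a : ℂ) + Polynomial.C (b : ℂ) * Polynomial.X +
      Polynomial.C (c : ℂ) * Polynomial.X ^ 2) ≠ 0 := by
    intro h0
    have h1 := congrArg (Polynomial.eval (t1 : ℂ)) h0
    simp only [Polynomial.eval_add, Polynomial.eval_mul, Polynomial.eval_C, Polynomial.eval_X,
      Polynomial.eval_pow, Polynomial.eval_zero] at h1
    have h2 : a + b * t1 + c * t1 ^ 2 = 0 := by exact_mod_cast h1
    exact hA1.ne' h2
  refine (Polynomial.rootSet_finite (Polynomial.C (a : ℂ) + Polynomial.C (b : ℂ) * Polynomial.X +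
      Polynomial.C (c : ℂ) * Polynomial.X ^ 2) ℂ).countable.mono fun t ht => ?_
  rw [Polynomial.mem_rootSet]
  refine ⟨hp, ?_⟩
  have ht' : (a : ℂ) + b * t + c * t ^ 2 = 0 := ht
  simpa using ht'

theorem cont_abs (F : ℂ × ℂ → ℂ) (hF : Differentiable ℂ F) {a b c q t1 t0 : ℝ} (hq : 0 < q)
    (hA1 : 0 < a + b * t1 + c * t1 ^ 2) (hneg : a + b * t0 + c * t0 ^ 2 < 0)
    (hev : ∀ᶠ t : ℝ in 𝓝 t1, F (((√(q / (a + b * t + c * t ^ 2)) : ℝ) : ℂ), (t : ℂ)) = 0)
    (hne : ∀ κ : ℝ, κ ≠ 0 → F (-(Complex.I * κ), (t0 : ℂ)) ≠ 0) : False := by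
  -- the complex area polynomial
  obtain ⟨A, hAd⟩ : ∃ A : ℂ → ℂ, A = fun t => (a : ℂ) + b * t + c * t ^ 2 := ⟨_, rfl⟩
  have hAr : ∀ t : ℝ, A t = ((a + b * t + c * t ^ 2 : ℝ) : ℂ) := by
    intro t
    rw [hAd]
    push_cast
    rfl
  have hAdiff : Differentiable ℂ A := by
    rw [hAd]
    fun_prop
  obtain ⟨κ0, hκ0⟩ : ∃ κ0 : ℂ → ℂ, κ0 = fun t => ((q : ℂ) / A t) ^ ((1 / 2 : ℝ) : ℂ) := ⟨_, rfl⟩
  have hκsq : ∀ t, κ0 t ^ 2 = (q : ℂ) / A t := by
    intro t
    rw [hκ0]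
    exact half_sq _
  obtain ⟨P, hP⟩ : ∃ P : ℂ → ℂ, P = fun t => F (κ0 t, t) * F (-κ0 t, t) := ⟨_, rfl⟩
  have heven : ∀ (κ t : ℂ), κ ^ 2 = (q : ℂ) / A t → P t = F (κ, t) * F (-κ, t) := by
    intro κ t h3
    have h4 : (κ - κ0 t) * (κ + κ0 t) = 0 := by
      have := hκsq t
      linear_combination h3 - this
    rw [hP]
    rcases mul_eq_zero.1 h4 with h5 | h5
    · rw [sub_eq_zero.1 h5]
    · rw [eq_neg_of_add_eq_zero_left h5, neg_neg]
      exact mul_comm _ _
  obtain ⟨U, hU⟩ : ∃ U : Set ℂ, U = {t | A t ≠ 0} := ⟨_, rfl⟩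
  have hUm : ∀ t, t ∈ U ↔ A t ≠ 0 := by
    intro t
    rw [hU]
    exact Iff.rfl
  have hUo : IsOpen U := by
    rw [hU]
    exact isOpen_ne_fun hAdiff.continuous continuous_const
  have hdiff : DifferentiableOn ℂ P U := by
    intro t2 ht2
    have ht2' : A t2 ≠ 0 := (hUm t2).1 ht2
    obtain ⟨β, hβ⟩ : ∃ β : ℂ → ℂ, β = fun t => κ0 t2 * (A t2 / A t) ^ ((1 / 2 : ℝ) : ℂ) :=
      ⟨_, rfl⟩
    have hq1 : DifferentiableAt ℂ (fun t => A t2 / A t) t2 :=
      (differentiableAt_const _).div (hAdiff t2) ht2'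
    have hs1 : A t2 / A t2 ∈ Complex.slitPlane := by
      rw [div_self ht2']
      exact Complex.one_mem_slitPlane
    have hbr : DifferentiableAt ℂ β t2 := by
      rw [hβ]
      exact (hq1.cpow_const hs1).const_mul _
    have hF1 : DifferentiableAt ℂ (fun t => F (β t, t)) t2 :=
      DifferentiableAt.comp t2 (hF _) (hbr.prodMk differentiableAt_id)
    have hF2 : DifferentiableAt ℂ (fun t => F (-β t, t)) t2 :=
      DifferentiableAt.comp t2 (hF _) (hbr.neg.prodMk differentiableAt_id)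
    refine DifferentiableAt.differentiableWithinAt ((hF1.mul hF2).congr_of_eventuallyEq ?_)
    filter_upwards [hUo.mem_nhds ht2] with t ht
    refine heven _ t ?_
    have ht' : A t ≠ 0 := (hUm t).1 ht
    rw [hβ]
    simp only
    rw [mul_pow, hκsq, half_sq]
    field_simp
  have hanal : AnalyticOnNhd ℂ P U := hdiff.analyticOnNhd hUo
  have hUc : IsPreconnected U := by
    have hfin : {t : ℂ | A t = 0}.Countable := by
      rw [hAd]
      exact quad_countable hA1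
    have h3 : U = {t : ℂ | A t = 0}ᶜ := by
      rw [hU]
      rfl
    rw [h3]
    exact (hfin.isConnected_compl_of_one_lt_rank (by
      rw [Complex.rank_real_complex]; norm_num)).isPreconnected
  have hAc : Continuous (fun t : ℝ => a + b * t + c * t ^ 2) := by fun_prop
  have hzero1 : ∀ᶠ t : ℝ in 𝓝 t1, P (t : ℂ) = 0 := by
    have h4 : ∀ᶠ t : ℝ in 𝓝 t1, 0 < a + b * t + c * t ^ 2 :=
      hAc.continuousAt.eventually (lt_mem_nhds hA1)
    filter_upwards [hev, h4] with t ht ht4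
    have h5 : (((√(q / (a + b * t + c * t ^ 2)) : ℝ) : ℂ)) ^ 2 = (q : ℂ) / A t := by
      rw [hAr, ← Complex.ofReal_pow, Real.sq_sqrt (by positivity)]
      push_cast
      rfl
    rw [heven _ _ h5, ht, zero_mul]
  have ht1U : (t1 : ℂ) ∈ U := by
    rw [hUm, hAr]
    exact_mod_cast hA1.ne'
  have hfreq : ∃ᶠ z in 𝓝[≠] (t1 : ℂ), P z = 0 := by
    have h5 : Tendsto (fun s : ℝ => (s : ℂ)) (𝓝[≠] t1) (𝓝[≠] (t1 : ℂ)) := by
      apply tendsto_nhdsWithin_of_tendsto_nhds_of_eventually_within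
      · exact (Complex.continuous_ofReal.tendsto t1).mono_left nhdsWithin_le_nhds
      · filter_upwards [self_mem_nhdsWithin] with s hs
        intro h6
        exact hs (Complex.ofReal_injective h6)
    refine h5.frequently ?_
    exact (hzero1.filter_mono nhdsWithin_le_nhds).frequently
  have hzero := hanal.eqOn_zero_of_preconnected_of_frequently_eq_zero hUc ht1U hfreq
  -- the special point
  have ht0U : (t0 : ℂ) ∈ U := by
    rw [hUm, hAr]
    exact_mod_cast hneg.ne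
  have hval := hzero ht0U
  simp only [Pi.zero_apply] at hval
  obtain ⟨k', hk'⟩ : ∃ k', k' = √(q / (-(a + b * t0 + c * t0 ^ 2))) := ⟨_, rfl⟩
  have hk'pos : 0 < k' := by
    rw [hk']
    exact Real.sqrt_pos.2 (div_pos hq (by linarith))
  have hk'2 : k' ^ 2 = q / (-(a + b * t0 + c * t0 ^ 2)) := by
    rw [hk']
    exact Real.sq_sqrt (div_pos hq (by linarith)).le
  have h9 : (-(Complex.I * (k' : ℂ))) ^ 2 = (q : ℂ) / A t0 := by
    rw [hAr]
    have h10 : (-(Complex.I * (k' : ℂ))) ^ 2 = -((k' ^ 2 : ℝ) : ℂ) := by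
      push_cast
      linear_combination (k' : ℂ) ^ 2 * Complex.I_sq
    rw [h10, hk'2, div_neg, Complex.ofReal_neg, neg_neg]
    push_cast
    rfl
  rw [heven _ _ h9] at hval
  rcases mul_eq_zero.1 hval with h11 | h11
  · exact hne k' hk'pos.ne' h11
  · refine hne (-k') (neg_ne_zero.2 hk'pos.ne') ?_
    rw [← h11]
    congr 2
    push_cast
    ring

theorem endw_thm (h1 : S_FFS) (h2 : S_ZW) : S_ENDW := by
  intro h k hh hk hw hnot q t1 hq hA1 hev
  obtain ⟨a, b, c, hA⟩ := area_line hh hk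
  -- the direction of width zero
  obtain ⟨t0, ht0⟩ : ∃ t0, t0 = -(h 0 + h π) / (k 0 + k π) := ⟨_, rfl⟩
  have hg0 : (fun θ => h θ + t0 * k θ) 0 + (fun θ => h θ + t0 * k θ) π = 0 := by
    change h 0 + t0 * k 0 + (h π + t0 * k π) = 0
    have : t0 * (k 0 + k π) = -(h 0 + h π) := by
      rw [ht0]; field_simp
    linarith
  have hgl : ¬ ∃ a b : ℝ, ∀ θ, (fun θ => h θ + t0 * k θ) θ = a * cos θ + b * sin θ := by
    rintro ⟨a, b, hab⟩
    refine hnot ⟨-t0, a, b, fun θ => ?_⟩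
    have := hab θ
    simp only at this
    linarith
  obtain ⟨hneg, hne⟩ := h2 _ (hh.line hk t0) hg0 hgl
  rw [hA t0] at hneg
  rw [hA t1] at hA1
  simp only [hA] at hev
  refine cont_abs (fun p : ℂ × ℂ => ff h k p.1 p.2)
    ((h1 h k hh hk).differentiable (by simp)) hq hA1 hneg hev ?_
  intro κ hκ h7
  apply hne κ hκ
  rw [← h7]
  simp only
  unfold ff
  refine intervalIntegral.integral_congr fun θ _ => ?_
  have h8 : Complex.I * (-(Complex.I * κ)) = κ := by
    linear_combination -(κ : ℂ) * Complex.I_sq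
  rw [h8, rho_line hh hk, yy_line hh hk]
  push_cast
  ring_nf

end Pool.Agent.Y278.MK
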