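import Mathlib
import Pool.Agent.Y278.MK.Geo
import Pool.Agent.TH298.GB.Fin
import Pool.Agent.W632.Schiffer2

/-!
Project MK: the assembly. Every line in the space of `C²` support functions which does not meet
the point bodies contains at most countably many Schiffer domains.
-/

set_option autoImplicit false

namespace Pool.Agent.Y278.MK

open MeasureTheory Set Real Filter Topology
open scoped ContDiff

/-! ### Translations -/

theorem solvable_trans {Ω : Set ℂ} {lam : ℝ} (h : Solvable Ω lam) (hm : MeasurableSet Ω) (p : ℂ) :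
    Solvable ((fun x : ℂ => x + p) ⁻¹' Ω) lam := by
  obtain ⟨c, u, G, h1, h2, h3, h4, h5⟩ := h
  have hs : Pool.Agent.TH298.Sch.Sol Ω lam c u G := ⟨h1, h2, h3, h4⟩
  have ht := Pool.Agent.TH298.GB.trans_sol hs hm p
  refine ⟨c, fun x => u (x + p), fun x => G (x + p), ht.u2, ht.G2, ht.h1, ht.h2, fun h6 => h5 ?_⟩
  have hmp := (Pool.Agent.TH298.GB.mp_tr p).restrict_preimage hm
  rw [← hmp.map_eq]
  have h7 := (Pool.Agent.TH298.GB.me_tr p).ae_map_iff
    (μ := volume.restrict ((fun x : ℂ => x + p) ⁻¹' Ω)) (p := fun x => u x = (0 : ℂ → ℝ) x)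
  exact h7.2 h6

theorem solvable_nonempty {Ω : Set ℂ} {lam : ℝ} (h : Solvable Ω lam) : Ω.Nonempty := by
  by_contra hcon
  rw [not_nonempty_iff_eq_empty] at hcon
  obtain ⟨c, u, G, h1, h2, h3, h4, h5⟩ := h
  apply h5
  rw [hcon, Measure.restrict_empty]
  rw [Filter.EventuallyEq, ae_zero]
  exact Filter.eventually_bot

/-! ### The Fourier transform vanishes -/

theorem ff_zero (hA : S_AREA) {g : ℝ → ℝ} {lam : ℝ} (hg : C2P g) (h0 : ∀ θ, 0 < g θ)
    (h1 : ∀ θ, 0 < rho g θ) (hlam : 0 < lam) (hs : Solvable (Om g) lam) :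
    FF g (√lam) = 0 := by
  obtain ⟨c, u, G, k1, k2, k3, k4, k5⟩ := hs
  have hm := (Om_open hg).measurableSet
  have h2 := Pool.Agent.W632.Schiffer.ft_zero (Om_bdd g) hm hlam k1 k3 k4 k5
    ((√lam : ℝ) : ℂ) (by
      rw [Complex.norm_real, Real.norm_eq_abs, sq_abs, Real.sq_sqrt hlam.le])
  have hinn : ∀ x : ℂ, (inner ℝ ((√lam : ℝ) : ℂ) x : ℝ) = √lam * x.re := by
    intro x
    rw [Complex.inner]
    simp [mul_comm]
  simp only [hinn] at h2
  unfold FF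
  rw [← hA g hg h0 h1 (√lam)]
  have hfin : IsFiniteMeasure (volume.restrict (Om g)) := ⟨by
    rw [Measure.restrict_apply_univ]; exact (Om_bdd g).measure_lt_top⟩
  have hexp : ∀ x : ℂ, Complex.exp (Complex.I * ((√lam : ℝ) * x.re)) =
      (Real.cos (√lam * x.re) : ℂ) + Complex.I * (Real.sin (√lam * x.re) : ℂ) := by
    intro x
    rw [mul_comm, ← Complex.ofReal_mul, Complex.exp_mul_I, Complex.ofReal_cos,
      Complex.ofReal_sin]
    ring
  simp only [hexp]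
  have i1 : Integrable (fun x : ℂ => (Real.cos (√lam * x.re) : ℂ)) (volume.restrict (Om g)) := by
    refine Integrable.of_bound (C := 1) ?_ ?_
    · exact (Complex.continuous_ofReal.comp (continuous_cos.comp
        (continuous_const.mul Complex.continuous_re))).aestronglyMeasurable
    · refine Eventually.of_forall fun x => ?_
      rw [Complex.norm_real]
      exact abs_cos_le_one _
  have i2 : Integrable (fun x : ℂ => (Real.sin (√lam * x.re) : ℂ)) (volume.restrict (Om g)) := by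
    refine Integrable.of_bound (C := 1) ?_ ?_
    · exact (Complex.continuous_ofReal.comp (continuous_sin.comp
        (continuous_const.mul Complex.continuous_re))).aestronglyMeasurable
    · refine Eventually.of_forall fun x => ?_
      rw [Complex.norm_real]
      exact abs_sin_le_one _
  rw [integral_add i1 (i2.const_mul _), integral_const_mul, integral_complex_ofReal,
    integral_complex_ofReal, h2.1, h2.2]
  simp

/-! ### Accumulation -/

/-- the elementary inequality behind the accumulation condition -/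
theorem small_step {C C1 ε : ℝ} (hC : 0 < C) (hC1 : 0 < C1) (hε : 0 < ε) :
    ∃ η : ℝ, 0 < η ∧ ∀ X Y Z : ℝ, 0 ≤ X → 0 ≤ Y → 0 ≤ Z → X ≤ C * ((Y + Z) * √(Y + Z)) →
      Z ≤ C1 * (X + Y) → X < η → Y < η → X ≤ ε * Y := by
  obtain ⟨e, he⟩ : ∃ e, e = min (1 / 2) (ε / 2) := ⟨_, rfl⟩
  have he0 : 0 < e := by rw [he]; positivity
  have he1 : e ≤ 1 / 2 := by rw [he]; exact min_le_left _ _
  have he2 : e ≤ ε / 2 := by rw [he]; exact min_le_right _ _
  obtain ⟨K, hK⟩ : ∃ K, K = C * (1 + C1) := ⟨_, rfl⟩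
  have hK0 : 0 < K := by rw [hK]; positivity
  refine ⟨(e / K) ^ 2 / (2 * (1 + C1)), by positivity, ?_⟩
  intro X Y Z hX hY hZ h1 h2 hXη hYη
  have h3 : Y + Z ≤ (1 + C1) * (X + Y) := by nlinarith
  have h4 : (1 + C1) * (X + Y) ≤ (e / K) ^ 2 := by
    have h5 : X + Y ≤ (e / K) ^ 2 / (1 + C1) := by
      have h6 : (e / K) ^ 2 / (2 * (1 + C1)) + (e / K) ^ 2 / (2 * (1 + C1)) =
          (e / K) ^ 2 / (1 + C1) := by field_simp; ring
      linarith
    rw [le_div_iff₀ (by positivity)] at h5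
    linarith
  have h5 : √(Y + Z) ≤ e / K := by
    rw [Real.sqrt_le_left (by positivity)]
    linarith
  have h6 : X ≤ e * (X + Y) := by
    calc X ≤ C * ((Y + Z) * √(Y + Z)) := h1
      _ ≤ C * (((1 + C1) * (X + Y)) * (e / K)) := by
        refine mul_le_mul_of_nonneg_left (mul_le_mul h3 h5 (Real.sqrt_nonneg _) ?_) hC.le
        positivity
      _ = e * (X + Y) := by
        rw [hK]
        field_simp
  have h7 : e * X ≤ (1 / 2) * X := mul_le_mul_of_nonneg_right he1 hX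
  have h8 : e * Y ≤ (ε / 2) * Y := mul_le_mul_of_nonneg_right he2 hY
  nlinarith

/-- an analytic function all of whose derivatives vanish at a point is zero near the point -/
theorem ev_zero {f : ℝ → ℂ} {x : ℝ} (hf : AnalyticAt ℝ f x) (h0 : ∀ n, iteratedDeriv n f x = 0) :
    ∀ᶠ t in 𝓝 x, f t = 0 := by
  obtain ⟨p, r, hp⟩ := hf
  have h1 : ∀ (n : ℕ) (y : ℝ), p n (fun _ => y) = 0 := by
    intro n y
    have h2 := hp.factorial_smul y n
    rw [iteratedFDeriv_apply_eq_iteratedDeriv_mul_prod, h0, smul_zero] at h2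
    have h3 : (n.factorial : ℕ) ≠ 0 := n.factorial_ne_zero
    exact (smul_eq_zero.1 h2).resolve_left h3
  filter_upwards [hp.eventually_hasSum_sub] with y hy
  simp only [h1] at hy
  exact hy.unique hasSum_zero

theorem lip_quot (a b c : ℝ) {t q : ℝ} (hA : 0 < a + b * t + c * t ^ 2) (hq : 0 < q) :
    ∃ C1 r : ℝ, 0 < C1 ∧ 0 < r ∧ ∀ q' s : ℝ, |s - t| < r →
      |q' / (a + b * s + c * s ^ 2) - q / (a + b * t + c * t ^ 2)| ≤
        C1 * (|q' - q| + |s - t|) := by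
  obtain ⟨A, hAd⟩ : ∃ A, A = a + b * t + c * t ^ 2 := ⟨_, rfl⟩
  rw [← hAd] at hA ⊢
  obtain ⟨K, hK⟩ : ∃ K, K = |b| + |c| * (2 * |t| + 1) + 1 := ⟨_, rfl⟩
  have hK0 : 0 < K := by rw [hK]; positivity
  refine ⟨2 / A + 2 * q * K / A ^ 2, min 1 (A / (2 * K)), by positivity, by positivity, ?_⟩
  intro q' s hs
  have hs1 : |s - t| < 1 := hs.trans_le (min_le_left _ _)
  have hs2 : |s - t| < A / (2 * K) := hs.trans_le (min_le_right _ _)
  obtain ⟨B, hB⟩ : ∃ B, B = a + b * s + c * s ^ 2 := ⟨_, rfl⟩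
  rw [← hB]
  have h1 : |B - A| ≤ K * |s - t| := by
    have h2 : B - A = (b + c * (s + t)) * (s - t) := by
      rw [hB, hAd]; ring
    rw [h2, abs_mul]
    refine mul_le_mul_of_nonneg_right ?_ (abs_nonneg _)
    have h3 : |s + t| ≤ 2 * |t| + 1 := by
      have h4 : s + t = (s - t) + 2 * t := by ring
      rw [h4]
      refine (abs_add_le _ _).trans ?_
      rw [abs_mul, abs_two]
      linarith
    calc |b + c * (s + t)| ≤ |b| + |c * (s + t)| := abs_add_le _ _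
      _ = |b| + |c| * |s + t| := by rw [abs_mul]
      _ ≤ |b| + |c| * (2 * |t| + 1) := by
        have := mul_le_mul_of_nonneg_left h3 (abs_nonneg c)
        linarith
      _ ≤ K := by rw [hK]; linarith
  have h2 : K * |s - t| ≤ A / 2 := by
    have h3 := mul_le_mul_of_nonneg_left hs2.le hK0.le
    have h4 : K * (A / (2 * K)) = A / 2 := by field_simp
    linarith
  have hB2 : A / 2 ≤ B := by
    have h3 := (abs_le.1 h1).1
    linarith
  have hB0 : 0 < B := by linarith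
  have h3 : q' / B - q / A = (q' - q) / B - q * (B - A) / (A * B) := by
    field_simp
    ring
  rw [h3]
  have h4 : |(q' - q) / B| ≤ 2 / A * |q' - q| := by
    rw [abs_div, abs_of_pos hB0, div_le_iff₀ hB0]
    have h5 : 1 ≤ 2 / A * B := by
      rw [div_mul_eq_mul_div, le_div_iff₀ hA]
      linarith
    have h6 := mul_le_mul_of_nonneg_right h5 (abs_nonneg (q' - q))
    linarith
  have h5 : |q * (B - A) / (A * B)| ≤ 2 * q * K / A ^ 2 * |s - t| := by
    rw [abs_div, abs_mul, abs_of_pos hq, abs_of_pos (mul_pos hA hB0),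
      div_le_iff₀ (mul_pos hA hB0)]
    have h6 : 2 * q * K / A ^ 2 * |s - t| * (A * B) = (q * (K * |s - t|)) * (2 * B / A) := by
      field_simp
    rw [h6]
    have h7 : 1 ≤ 2 * B / A := by
      rw [le_div_iff₀ hA]
      linarith
    calc q * |B - A| ≤ q * (K * |s - t|) := mul_le_mul_of_nonneg_left h1 hq.le
      _ = (q * (K * |s - t|)) * 1 := (mul_one _).symm
      _ ≤ _ := mul_le_mul_of_nonneg_left h7 (by positivity)
  calc |(q' - q) / B - q * (B - A) / (A * B)| ≤ |(q' - q) / B| + |q * (B - A) / (A * B)| :=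
        abs_sub _ _
    _ ≤ 2 / A * |q' - q| + 2 * q * K / A ^ 2 * |s - t| := add_le_add h4 h5
    _ ≤ _ := by
      have h6 : 0 ≤ 2 / A * |s - t| := by positivity
      have h7 : 0 ≤ 2 * q * K / A ^ 2 * |q' - q| := by positivity
      nlinarith

theorem smooth_G {h k : ℝ → ℝ} (hF : ContDiff ℂ ∞ (fun p : ℂ × ℂ => ff h k p.1 p.2))
    {a b c : ℝ} {D : Set (ℝ × ℝ)}
    (hD : ∀ p ∈ D, 0 < p.1 ∧ 0 < a + b * p.2 + c * p.2 ^ 2) :
    ContDiffOn ℝ ∞ (fun p : ℝ × ℝ =>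
      ff h k ((√(p.1 / (a + b * p.2 + c * p.2 ^ 2)) : ℝ) : ℂ) (p.2 : ℂ)) D := by
  intro p hp
  obtain ⟨h1, h2⟩ := hD p hp
  have hA : ContDiffAt ℝ ∞ (fun p : ℝ × ℝ => a + b * p.2 + c * p.2 ^ 2) p := by
    fun_prop
  have hq : ContDiffAt ℝ ∞ (fun p : ℝ × ℝ => p.1 / (a + b * p.2 + c * p.2 ^ 2)) p :=
    contDiffAt_fst.div hA h2.ne'
  have hs : ContDiffAt ℝ ∞ (fun p : ℝ × ℝ => √(p.1 / (a + b * p.2 + c * p.2 ^ 2))) p :=
    hq.sqrt (div_pos h1 h2).ne'
  have hs' : ContDiffAt ℝ ∞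
      (fun p : ℝ × ℝ => ((√(p.1 / (a + b * p.2 + c * p.2 ^ 2)) : ℝ) : ℂ)) p :=
    Complex.ofRealCLM.contDiff.contDiffAt.comp p hs
  have ht : ContDiffAt ℝ ∞ (fun p : ℝ × ℝ => ((p.2 : ℝ) : ℂ)) p :=
    Complex.ofRealCLM.contDiff.contDiffAt.comp p contDiffAt_snd
  have hF' : ContDiff ℝ ∞ (fun p : ℂ × ℂ => ff h k p.1 p.2) := hF.restrict_scalars ℝ
  exact (ContDiffAt.comp p hF'.contDiffAt (hs'.prodMk ht)).contDiffWithinAt

theorem analytic_G (F : ℂ × ℂ → ℂ) (hF : Differentiable ℂ F) {a b c q t1 : ℝ} (hq : 0 < q)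
    (hA1 : 0 < a + b * t1 + c * t1 ^ 2) :
    AnalyticAt ℝ (fun t : ℝ => F (((√(q / (a + b * t + c * t ^ 2)) : ℝ) : ℂ), (t : ℂ))) t1 := by
  obtain ⟨A, hAd⟩ : ∃ A : ℂ → ℂ, A = fun t => (a : ℂ) + b * t + c * t ^ 2 := ⟨_, rfl⟩
  have hAr : ∀ t : ℝ, A t = ((a + b * t + c * t ^ 2 : ℝ) : ℂ) := by
    intro t
    rw [hAd]
    push_cast
    rfl
  have hAdiff : Differentiable ℂ A := by
    rw [hAd]
    fun_prop
  have hA0 : A t1 ≠ 0 := by
    rw [hAr]
    exact_mod_cast hA1.ne'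
  have hd1 : ∀ z, A z ≠ 0 → DifferentiableAt ℂ (fun z => (q : ℂ) / A z) z := fun z hz =>
    (differentiableAt_const _).div (hAdiff z) hz
  have hs1 : (q : ℂ) / A t1 ∈ Complex.slitPlane := by
    rw [hAr, ← Complex.ofReal_div]
    exact Complex.ofReal_mem_slitPlane.2 (div_pos hq hA1)
  have hev : ∀ᶠ z in 𝓝 (t1 : ℂ), A z ≠ 0 ∧ (q : ℂ) / A z ∈ Complex.slitPlane := by
    refine (hAdiff.continuous.continuousAt.eventually_ne hA0).and ?_
    exact (hd1 _ hA0).continuousAt.eventually (Complex.isOpen_slitPlane.mem_nhds hs1)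
  have hΦ : AnalyticAt ℂ (fun z => F (((q : ℂ) / A z) ^ ((1 / 2 : ℝ) : ℂ), z)) (t1 : ℂ) := by
    refine DifferentiableOn.analyticAt (s := {z | A z ≠ 0 ∧ (q : ℂ) / A z ∈ Complex.slitPlane})
      ?_ hev
    intro z hz
    have h1 : DifferentiableAt ℂ (fun z => ((q : ℂ) / A z) ^ ((1 / 2 : ℝ) : ℂ)) z :=
      (hd1 z hz.1).cpow_const hz.2
    have h2 : DifferentiableAt ℂ (fun z => F (((q : ℂ) / A z) ^ ((1 / 2 : ℝ) : ℂ), z)) z :=
      DifferentiableAt.comp z (hF _) (h1.prodMk differentiableAt_id)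
    exact h2.differentiableWithinAt
  have hΦr : AnalyticAt ℝ (fun z => F (((q : ℂ) / A z) ^ ((1 / 2 : ℝ) : ℂ), z)) (t1 : ℂ) :=
    hΦ.restrictScalars
  obtain ⟨Φ, hΦd⟩ : ∃ Φ : ℂ → ℂ, Φ = fun z => F (((q : ℂ) / A z) ^ ((1 / 2 : ℝ) : ℂ), z) :=
    ⟨_, rfl⟩
  rw [← hΦd] at hΦr
  have hcomp0 : AnalyticAt ℝ (Φ ∘ fun t : ℝ => (t : ℂ)) t1 :=
    AnalyticAt.comp hΦr (Complex.ofRealCLM.analyticAt t1)
  have hcomp : AnalyticAt ℝ (fun t : ℝ => F (((q : ℂ) / A t) ^ ((1 / 2 : ℝ) : ℂ), (t : ℂ))) t1 := by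
    rw [hΦd] at hcomp0
    exact hcomp0
  refine hcomp.congr ?_
  have hAc : Continuous (fun t : ℝ => a + b * t + c * t ^ 2) := by fun_prop
  have h4 : ∀ᶠ t : ℝ in 𝓝 t1, 0 < a + b * t + c * t ^ 2 :=
    hAc.continuousAt.eventually (lt_mem_nhds hA1)
  filter_upwards [h4] with t ht
  rw [hAr, ← Complex.ofReal_div, ← Complex.ofReal_cpow (div_pos hq ht).le, Real.sqrt_eq_rpow]

theorem core_pos (hA : S_AREA) (hQ : S_QCL) (hF : S_FFS) (hP : S_PS) (hC : S_CNT)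
    (hE : S_ENDG) {h k : ℝ → ℝ} (hh : C2P h) (hk : C2P k)
    (hind : ∀ a b c d : ℝ, (∀ θ, a * h θ + b * k θ = c * cos θ + d * sin θ) → a = 0 ∧ b = 0)
    (J : Set ℝ) (hJo : IsOpen J) (hJ0 : ∀ t ∈ J, ∀ θ, 0 < h θ + t * k θ)
    (hJ1 : ∀ t ∈ J, ∀ θ, 0 < rho h θ + t * rho k θ) :
    {t : ℝ | t ∈ J ∧ ∃ lam, 0 < lam ∧ Solvable (Om fun θ => h θ + t * k θ) lam}.Countable := by
  by_contra hcon
  obtain ⟨B, hB⟩ : ∃ B, B = {t : ℝ | t ∈ J ∧ ∃ lam, 0 < lam ∧
    Solvable (Om fun θ => h θ + t * k θ) lam} := ⟨_, rfl⟩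
  rw [← hB] at hcon
  have hBm : ∀ t ∈ B, t ∈ J ∧ ∃ lam, 0 < lam ∧ Solvable (Om fun θ => h θ + t * k θ) lam := by
    intro t ht
    rw [hB] at ht
    exact ht
  choose! lam hlam0 hlamS using fun t ht => (hBm t ht).2
  have hBJ : ∀ t ∈ B, t ∈ J := fun t ht => (hBm t ht).1
  obtain ⟨a, b, c, hAr⟩ := area_line hh hk
  have hApos : ∀ t ∈ J, 0 < a + b * t + c * t ^ 2 := by
    intro t ht
    rw [← hAr]
    exact area_pos (hh.line hk t) (hJ0 t ht) fun θ => by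
      rw [rho_line hh hk]
      exact hJ1 t ht θ
  obtain ⟨U, hUd⟩ : ∃ U, U = (fun t : ℝ => (lam t * (a + b * t + c * t ^ 2), t)) '' B := ⟨_, rfl⟩
  have hU : ¬ U.Countable := by
    intro h1
    apply hcon
    refine (h1.image Prod.snd).mono fun t ht => ?_
    rw [hUd, image_image]
    exact ⟨t, ht, rfl⟩
  have hUm : ∀ u ∈ U, u.2 ∈ B ∧ u.1 = lam u.2 * (a + b * u.2 + c * u.2 ^ 2) := by
    intro u hu
    rw [hUd] at hu
    obtain ⟨t, ht, rfl⟩ := hu
    exact ⟨ht, rfl⟩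
  obtain ⟨U', hU'U, hne, hacc⟩ := hC U hU
  obtain ⟨D, hD⟩ : ∃ D : Set (ℝ × ℝ), D = {p | 0 < p.1 ∧ p.2 ∈ J} := ⟨_, rfl⟩
  have hDm : ∀ p, p ∈ D ↔ 0 < p.1 ∧ p.2 ∈ J := by
    intro p
    rw [hD]
    exact Iff.rfl
  have hDo : IsOpen D := by
    rw [hD]
    exact (isOpen_lt continuous_const continuous_fst).inter (hJo.preimage continuous_snd)
  have hUD : U' ⊆ D := by
    intro u hu
    obtain ⟨h1, h2⟩ := hUm u (hU'U hu)
    rw [hDm, h2]
    exact ⟨mul_pos (hlam0 _ h1) (hApos _ (hBJ _ h1)), hBJ _ h1⟩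
  have hsm := smooth_G (hF h k hh hk) (a := a) (b := b) (c := c) (D := D)
    (fun p hp => ⟨((hDm p).1 hp).1, hApos _ ((hDm p).1 hp).2⟩)
  have hzero : ∀ u ∈ U', ff h k ((√(u.1 / (a + b * u.2 + c * u.2 ^ 2)) : ℝ) : ℂ) (u.2 : ℂ) = 0 := by
    intro u hu
    obtain ⟨h1, h2⟩ := hUm u (hU'U hu)
    have h3 := hApos _ (hBJ _ h1)
    rw [h2, mul_div_cancel_right₀ _ h3.ne', ff_eq hh hk]
    refine ff_zero hA (hh.line hk _) (hJ0 _ (hBJ _ h1)) (fun θ => ?_) (hlam0 _ h1) (hlamS _ h1)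
    rw [rho_line hh hk]
    exact hJ1 _ (hBJ _ h1) θ
  have hstep : ∀ u ∈ U', ∀ ε : ℝ, 0 < ε → ∃ v ∈ U', 0 < |v.2 - u.2| ∧ |v.2 - u.2| < ε ∧
      |v.1 - u.1| ≤ ε * |v.2 - u.2| := by
    intro u hu ε hε
    obtain ⟨h1, h2⟩ := hUm u (hU'U hu)
    have hAu := hApos _ (hBJ _ h1)
    have hl0 := hlam0 _ h1
    obtain ⟨C, ε0, hC0, hε0, hqc⟩ := hQ (fun θ => h θ + u.2 * k θ) k (lam u.2) (hh.line hk _) hk
      (hJ0 _ (hBJ _ h1)) (fun θ => by rw [rho_line hh hk]; exact hJ1 _ (hBJ _ h1) θ) hl0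
      (hlamS _ h1)
    have hq0 : 0 < u.1 := by
      rw [h2]
      exact mul_pos hl0 hAu
    obtain ⟨C1, r, hC1, hr, hlip⟩ := lip_quot a b c hAu hq0
    obtain ⟨η, hη, hη2⟩ := small_step hC0 hC1 hε
    obtain ⟨δ, hδ⟩ : ∃ δ, δ = min (min η ε) (min r (min ε0 (ε0 / (2 * C1)))) := ⟨_, rfl⟩
    have hδ0 : 0 < δ := by
      rw [hδ]
      positivity
    have hδ1 : δ ≤ η := by rw [hδ]; exact (min_le_left _ _).trans (min_le_left _ _)
    have hδ2 : δ ≤ ε := by rw [hδ]; exact (min_le_left _ _).trans (min_le_right _ _)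
    have hδ3 : δ ≤ r := by rw [hδ]; exact (min_le_right _ _).trans (min_le_left _ _)
    have hδ4 : δ ≤ ε0 := by
      rw [hδ]; exact (min_le_right _ _).trans ((min_le_right _ _).trans (min_le_left _ _))
    have hδ5 : δ ≤ ε0 / (2 * C1) := by
      rw [hδ]; exact (min_le_right _ _).trans ((min_le_right _ _).trans (min_le_right _ _))
    obtain ⟨v, hv, hvu, hv1, hv2⟩ := hacc u hu δ hδ0
    obtain ⟨k1, k2⟩ := hUm v (hU'U hv)
    have hAv := hApos _ (hBJ _ k1)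
    have hZ := hlip v.1 v.2 (hv2.trans_le hδ3)
    have e1 : v.1 / (a + b * v.2 + c * v.2 ^ 2) = lam v.2 := by
      rw [k2, mul_div_cancel_right₀ _ hAv.ne']
    have e2 : u.1 / (a + b * u.2 + c * u.2 ^ 2) = lam u.2 := by
      rw [h2, mul_div_cancel_right₀ _ hAu.ne']
    rw [e1, e2] at hZ
    have hZ2 : |lam v.2 - lam u.2| ≤ ε0 := by
      have h3 : |v.1 - u.1| + |v.2 - u.2| ≤ 2 * (ε0 / (2 * C1)) := by linarith
      have h4 := mul_le_mul_of_nonneg_left h3 hC1.le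
      have h5 : C1 * (2 * (ε0 / (2 * C1))) = ε0 := by field_simp
      linarith
    have efun : (fun θ => (h θ + u.2 * k θ) + (v.2 - u.2) * k θ) = fun θ => h θ + v.2 * k θ := by
      funext θ
      ring
    have h3 := hqc (v.2 - u.2) (lam v.2) (hv2.le.trans hδ4) hZ2 (by rw [efun]; exact hlamS _ k1)
    rw [efun, hAr, hAr, ← k2, ← h2] at h3
    have h4 := hη2 |v.1 - u.1| |v.2 - u.2| |lam v.2 - lam u.2| (abs_nonneg _) (abs_nonneg _)
      (abs_nonneg _) h3 hZ (hv1.trans_le hδ1) (hv2.trans_le hδ1)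
    refine ⟨v, hv, ?_, hv2.trans_le hδ2, h4⟩
    refine lt_of_le_of_ne (abs_nonneg _) fun h5 => hvu ?_
    rw [← h5, mul_zero] at h4
    have h6 : v.1 - u.1 = 0 := abs_eq_zero.1 (le_antisymm h4 (abs_nonneg _))
    have h7 : v.2 - u.2 = 0 := abs_eq_zero.1 h5.symm
    exact Prod.ext (sub_eq_zero.1 h6) (sub_eq_zero.1 h7)
  obtain ⟨u, hu⟩ := hne
  have hder := hP D _ U' hDo hsm hUD hzero hstep u hu
  obtain ⟨h1, h2⟩ := hUm u (hU'U hu)
  have hAu := hApos _ (hBJ _ h1)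
  have hq0 : 0 < u.1 := by
    rw [h2]
    exact mul_pos (hlam0 _ h1) hAu
  have han := analytic_G (fun p : ℂ × ℂ => ff h k p.1 p.2)
    ((hF h k hh hk).differentiable (by simp)) hq0 hAu
  have hev := ev_zero han hder
  refine hE h k hh hk hind u.1 u.2 hq0 (by rw [hAr]; exact hAu) ?_
  simp only [hAr]
  exact hev

end Pool.Agent.Y278.MK
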