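import Mathlib
import Pool.Agent.Y278.MK.Main
import Pool.Agent.Y220.MK.Mink
import Pool.Agent.Y210.MK.Rho

/-!
Project MK: the final forms (lines, Minkowski pencils, parallel domains).
-/

set_option autoImplicit false

namespace Pool.Agent.Y278.MK

open MeasureTheory Set Real Filter Topology
open scoped ContDiff Pointwise

theorem lines_thm (hA : S_AREA) (hQ : S_QCL) (hF : S_FFS) (hP : S_PS) (hC : S_CNT)
    (hE : S_ENDG) {h k : ℝ → ℝ} (hh : C2P h) (hk : C2P k)
    (hind : ∀ a b c d : ℝ, (∀ θ, a * h θ + b * k θ = c * cos θ + d * sin θ) → a = 0 ∧ b = 0) :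
    {t : ℝ | (∀ θ, 0 < rho h θ + t * rho k θ) ∧
      ∃ lam, 0 < lam ∧ Solvable (Om fun θ => h θ + t * k θ) lam}.Countable := by
  obtain ⟨B, hB⟩ : ∃ B, B = {t : ℝ | (∀ θ, 0 < rho h θ + t * rho k θ) ∧
      ∃ lam, 0 < lam ∧ Solvable (Om fun θ => h θ + t * k θ) lam} := ⟨_, rfl⟩
  rw [← hB]
  have hBm : ∀ t, t ∈ B ↔ (∀ θ, 0 < rho h θ + t * rho k θ) ∧
      ∃ lam, 0 < lam ∧ Solvable (Om fun θ => h θ + t * k θ) lam := by
    intro t
    rw [hB]
    exact Iff.rfl
  -- local statement
  have hloc : ∀ t ∈ B, ∃ J : Set ℝ, J ∈ 𝓝 t ∧ (J ∩ B).Countable := by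
    intro t ht
    obtain ⟨h1, lam, hlam, hs⟩ := (hBm t).1 ht
    obtain ⟨p, hp⟩ := solvable_nonempty hs
    obtain ⟨h', hh'd⟩ : ∃ h' : ℝ → ℝ, h' = fun θ => h θ + (-1) * (p.re * cos θ + p.im * sin θ) :=
      ⟨_, rfl⟩
    have hh' : C2P h' := by
      rw [hh'd]
      exact hh.line (C2P.cs p.re p.im) (-1)
    have hrho : ∀ θ, rho h' θ = rho h θ := by
      intro θ
      rw [hh'd, rho_line hh (C2P.cs p.re p.im), rho_cs]
      ring
    have hom : ∀ s : ℝ, (fun x : ℂ => x + p) ⁻¹' Om (fun θ => h θ + s * k θ) =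
        Om (fun θ => h' θ + s * k θ) := by
      intro s
      rw [Om_trans]
      congr 1
      funext θ
      rw [hh'd]
      ring
    obtain ⟨J, hJ⟩ : ∃ J : Set ℝ, J = {t | ∀ θ, 0 < h' θ + t * k θ} ∩
        {t | ∀ θ, 0 < rho h θ + t * rho k θ} := ⟨_, rfl⟩
    have hJo : IsOpen J := by
      rw [hJ]
      exact (open_pos hh'.cont hk.cont hh'.2 hk.2).inter
        (open_pos hh.rho_cont hk.rho_cont hh.rho_per hk.rho_per)
    have hJ0 : ∀ t ∈ J, ∀ θ, 0 < h' θ + t * k θ := by
      intro s hs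
      rw [hJ] at hs
      exact hs.1
    have hJ1 : ∀ t ∈ J, ∀ θ, 0 < rho h θ + t * rho k θ := by
      intro s hs
      rw [hJ] at hs
      exact hs.2
    have htJ : t ∈ J := by
      rw [hJ]
      refine ⟨fun θ => ?_, h1⟩
      have h2 := hp θ
      rw [hh'd]
      simp only
      linarith
    have hind' : ∀ a b c d : ℝ, (∀ θ, a * h' θ + b * k θ = c * cos θ + d * sin θ) →
        a = 0 ∧ b = 0 := by
      intro a b c d h2
      refine hind a b (c + a * p.re) (d + a * p.im) fun θ => ?_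
      have h3 := h2 θ
      rw [hh'd] at h3
      simp only at h3
      linarith
    have hcount := core_pos hA hQ hF hP hC hE hh' hk hind' J hJo hJ0
      (fun s hs θ => by rw [hrho]; exact hJ1 s hs θ)
    refine ⟨J, hJo.mem_nhds htJ, hcount.mono fun s hs => ?_⟩
    obtain ⟨hsJ, hsB⟩ := hs
    obtain ⟨k1, mu, k2, k3⟩ := (hBm s).1 hsB
    refine ⟨hsJ, mu, k2, ?_⟩
    have k4 := solvable_trans k3 (Om_open (hh.line hk s)).measurableSet p
    rw [hom] at k4
    exact k4
  choose! J hJn hJc using hloc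
  obtain ⟨T, hTB, hTc, hcov⟩ := TopologicalSpace.countable_cover_nhdsWithin
    (f := fun t => J t) (s := B) (fun t ht => mem_nhdsWithin_of_mem_nhds (hJn t ht))
  refine (hTc.biUnion (t := fun t _ => J t ∩ B) fun t ht => hJc t (hTB ht)).mono fun s hs => ?_
  obtain ⟨t, ht, hst⟩ := mem_iUnion₂.1 (hcov hs)
  exact mem_iUnion₂.2 ⟨t, ht, hst, hs⟩

/-- separation: a point outside a closed convex set with support function `g` -/
theorem sep {M : Set ℂ} {g : ℝ → ℝ} (hMv : Convex ℝ M) (hMc : IsClosed M)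
    (hex : ∀ θ : ℝ, ∃ z ∈ M, z.re * cos θ + z.im * sin θ = g θ) {y : ℂ} (hyM : y ∉ M) :
    ∃ θ : ℝ, g θ < y.re * cos θ + y.im * sin θ := by
  obtain ⟨f, u, h1, h2⟩ := geometric_hahn_banach_closed_point hMv hMc hyM
  set w : ℂ := ⟨f 1, f Complex.I⟩ with hw
  have hf : ∀ z : ℂ, f z = ‖w‖ * (z.re * cos (Complex.arg w) + z.im * sin (Complex.arg w)) := by
    intro z
    have e1 : z = z.re • (1 : ℂ) + z.im • Complex.I := by
      apply Complex.ext <;> simp
    have e2 : f z = z.re * f 1 + z.im * f Complex.I := by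
      conv_lhs => rw [e1]
      rw [map_add, map_smul, map_smul, smul_eq_mul, smul_eq_mul]
    have e3 : ‖w‖ * cos (Complex.arg w) = f 1 := Complex.norm_mul_cos_arg w
    have e4 : ‖w‖ * sin (Complex.arg w) = f Complex.I := Complex.norm_mul_sin_arg w
    rw [e2, ← e3, ← e4]
    ring
  refine ⟨Complex.arg w, ?_⟩
  obtain ⟨z, hz, hzg⟩ := hex (Complex.arg w)
  have h3 := (h1 z hz).trans h2
  rw [hf z, hf y, hzg] at h3
  have hw0 : 0 < ‖w‖ := by
    rcases (norm_nonneg w).eq_or_lt with h0 | h0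
    · rw [← h0, zero_mul, zero_mul] at h3
      exact absurd h3 (lt_irrefl _)
    · exact h0
  exact lt_of_mul_lt_mul_left h3 hw0.le

/-- the support function of a plane set: `supp K θ = sup {⟨x, (cos θ, sin θ)⟩ : x ∈ K}` -/
noncomputable def supp (K : Set ℂ) (θ : ℝ) : ℝ :=
  sSup ((fun x : ℂ => x.re * cos θ + x.im * sin θ) '' K)

theorem supp_greatest {K : Set ℂ} (hK : IsCompact K) (hne : K.Nonempty) (θ : ℝ) :
    IsGreatest ((fun x : ℂ => x.re * cos θ + x.im * sin θ) '' K) (supp K θ) := by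
  have hc : Continuous (fun x : ℂ => x.re * cos θ + x.im * sin θ) := by fun_prop
  exact (hK.image hc).isGreatest_sSup (hne.image _)

theorem supp_ball {p : ℂ} {r : ℝ} (hr : 0 ≤ r) (θ : ℝ) :
    supp (Metric.closedBall p r) θ = r + (p.re * cos θ + p.im * sin θ) := by
  refine IsGreatest.csSup_eq ⟨?_, ?_⟩
  · refine ⟨p + (r : ℂ) * (cos θ + sin θ * Complex.I), ?_, ?_⟩
    · rw [mem_closedBall_iff_norm, add_sub_cancel_left, norm_mul, Complex.norm_real,
        Real.norm_of_nonneg hr, Complex.norm_add_mul_I, Real.cos_sq_add_sin_sq, Real.sqrt_one,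
        mul_one]
    · have h3 : (p + (r : ℂ) * (cos θ + sin θ * Complex.I)).re = p.re + r * cos θ := by
        simp [-Complex.ofReal_cos, -Complex.ofReal_sin]
      have h4 : (p + (r : ℂ) * (cos θ + sin θ * Complex.I)).im = p.im + r * sin θ := by
        simp [-Complex.ofReal_cos, -Complex.ofReal_sin]
      simp only [h3, h4]
      have := Real.cos_sq_add_sin_sq θ
      linear_combination r * this
  · rintro _ ⟨x, hx, rfl⟩
    rw [mem_closedBall_iff_norm] at hx
    have h1 := proj_le (x - p) θ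
    simp only [Complex.sub_re, Complex.sub_im] at h1
    simp only
    linarith

theorem mink_lines (hA : S_AREA) (hQ : S_QCL) (hF : S_FFS) (hP : S_PS) (hC : S_CNT)
    (hE : S_ENDG) (hM : S_MINK) (hR : S_RHO) (K L : Set ℂ) (hK : IsCompact K)
    (hKc : Convex ℝ K) (hKn : K.Nonempty) (hL : IsCompact L) (hLc : Convex ℝ L)
    (hLn : L.Nonempty) (hK2 : ContDiff ℝ 2 (supp K)) (hL2 : ContDiff ℝ 2 (supp L))
    (hpos : ∀ θ, 0 < supp L θ + deriv (deriv (supp L)) θ)
    (hhom : ∀ a : ℝ, 0 ≤ a → ∀ p : ℂ, K ≠ {z | ∃ y ∈ L, z = p + a • y}) :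
    {t : ℝ | 0 < t ∧ ∃ lam, 0 < lam ∧
      Solvable (interior {z : ℂ | ∃ x ∈ K, ∃ y ∈ L, z = x + t • y}) lam}.Countable := by
  have gK := supp_greatest hK hKn
  have gL := supp_greatest hL hLn
  obtain ⟨cK, rK⟩ := hR K (supp K) hK2 gK
  obtain ⟨cL, rL⟩ := hR L (supp L) hL2 gL
  have hposL : ∀ θ, 0 < rho (supp L) θ := hpos
  -- not homothetic
  have hnh : ¬ ∃ a b c : ℝ, ∀ θ, supp K θ = a * supp L θ + b * cos θ + c * sin θ := by
    rintro ⟨a, b, c, hab⟩
    have e1 : supp K = fun θ => 1 * (b * cos θ + c * sin θ) + a * supp L θ := by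
      funext θ
      rw [hab θ]
      ring
    have h1 : rho (supp K) 0 = a * rho (supp L) 0 := by
      rw [e1, rho_lin (C2P.cs b c) cL, rho_cs]
      ring
    have ha : 0 ≤ a := by
      by_contra hneg
      push Not at hneg
      have h2 := rK 0
      rw [h1] at h2
      have h3 := mul_neg_of_neg_of_pos hneg (hposL 0)
      linarith
    refine hhom a ha ⟨b, c⟩ ?_
    have hval : ∀ (y : ℂ) (θ : ℝ), ((⟨b, c⟩ : ℂ) + a • y).re * cos θ +
        ((⟨b, c⟩ : ℂ) + a • y).im * sin θ =
        b * cos θ + c * sin θ + a * (y.re * cos θ + y.im * sin θ) := by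
      intro y θ
      simp only [Complex.add_re, Complex.add_im, Complex.smul_re, Complex.smul_im, smul_eq_mul]
      ring
    -- the homothetic copy is compact and convex
    have hset : {z : ℂ | ∃ y ∈ L, z = (⟨b, c⟩ : ℂ) + a • y} =
        (fun y : ℂ => (⟨b, c⟩ : ℂ) + a • y) '' L := by
      ext z
      constructor
      · rintro ⟨y, hy, rfl⟩
        exact ⟨y, hy, rfl⟩
      · rintro ⟨y, hy, rfl⟩
        exact ⟨y, hy, rfl⟩
    have hcomp : IsCompact {z : ℂ | ∃ y ∈ L, z = (⟨b, c⟩ : ℂ) + a • y} := by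
      rw [hset]
      exact hL.image (by fun_prop)
    have hconv : Convex ℝ {z : ℂ | ∃ y ∈ L, z = (⟨b, c⟩ : ℂ) + a • y} := by
      have h4 : {z : ℂ | ∃ y ∈ L, z = (⟨b, c⟩ : ℂ) + a • y} =
          (fun z => (⟨b, c⟩ : ℂ) + z) '' (a • L) := by
        rw [hset]
        ext z
        constructor
        · rintro ⟨y, hy, rfl⟩
          exact ⟨a • y, smul_mem_smul_set hy, rfl⟩
        · rintro ⟨_, ⟨y, hy, rfl⟩, rfl⟩
          exact ⟨y, hy, rfl⟩
      rw [h4]
      exact (hLc.smul a).translate _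
    apply Subset.antisymm
    · intro x hx
      by_contra hcon
      obtain ⟨θ, hθ⟩ := sep (g := supp K) hconv hcomp.isClosed (fun θ => by
        obtain ⟨y, hy, hyv⟩ := (gL θ).1
        refine ⟨_, ⟨y, hy, rfl⟩, ?_⟩
        rw [hval, hab θ]
        simp only at hyv
        rw [hyv]
        ring) hcon
      have := (gK θ).2 ⟨x, hx, rfl⟩
      simp only at this
      linarith
    · rintro x ⟨y, hy, rfl⟩
      by_contra hcon
      obtain ⟨θ, hθ⟩ := sep (g := supp K) hKc hK.isClosed (fun θ => (gK θ).1) hcon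
      rw [hval, hab θ] at hθ
      have h5 := (gL θ).2 ⟨y, hy, rfl⟩
      simp only at h5
      have h6 := mul_le_mul_of_nonneg_left h5 ha
      linarith
  have hind : ∀ a b c d : ℝ, (∀ θ, a * supp K θ + b * supp L θ = c * cos θ + d * sin θ) →
      a = 0 ∧ b = 0 := by
    intro a b c d h1
    have ha : a = 0 := by
      by_contra ha
      refine hnh ⟨-b / a, c / a, d / a, fun θ => ?_⟩
      have h2 := h1 θ
      field_simp
      linarith
    refine ⟨ha, ?_⟩
    by_contra hb
    have h3 : ∀ θ, supp L θ = (c / b) * cos θ + (d / b) * sin θ := by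
      intro θ
      have h2 := h1 θ
      rw [ha] at h2
      field_simp
      linarith
    have h4 : supp L = fun θ => (c / b) * cos θ + (d / b) * sin θ := funext h3
    have h5 := hposL 0
    rw [h4, rho_cs] at h5
    exact lt_irrefl _ h5
  refine (lines_thm hA hQ hF hP hC hE cK cL hind).mono fun t ht => ?_
  obtain ⟨ht0, lam, hlam, hs⟩ := ht
  rw [hM K L (supp K) (supp L) t hK hKc hKn hL hLc hLn ht0 gK gL] at hs
  refine ⟨fun θ => ?_, lam, hlam, hs⟩
  have := mul_pos ht0 (hposL θ)
  have := rK θ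
  linarith

/-- outer parallel domains -/
theorem par_eq (hM : S_MINK) {K : Set ℂ} (hK : IsCompact K) (hKc : Convex ℝ K)
    (hKn : K.Nonempty) {t : ℝ} (ht : 0 < t) :
    Metric.thickening t K =
      interior {z : ℂ | ∃ x ∈ K, ∃ y ∈ Metric.closedBall (0 : ℂ) 1, z = x + t • y} := by
  have hset : {z : ℂ | ∃ x ∈ K, ∃ y ∈ Metric.closedBall (0 : ℂ) 1, z = x + t • y} =
      Metric.cthickening t K := by
    rw [hK.cthickening_eq_biUnion_closedBall ht.le]
    ext z
    simp only [mem_ofPred_eq, mem_iUnion, exists_prop]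
    refine exists_congr fun x => and_congr_right fun _ => ?_
    constructor
    · rintro ⟨y, hy, rfl⟩
      rw [mem_closedBall_zero_iff] at hy
      rw [mem_closedBall_iff_norm, add_sub_cancel_left, norm_smul, Real.norm_of_nonneg ht.le]
      nlinarith
    · intro hz
      rw [mem_closedBall_iff_norm] at hz
      refine ⟨t⁻¹ • (z - x), ?_, ?_⟩
      · rw [mem_closedBall_zero_iff, norm_smul, norm_inv, Real.norm_of_nonneg ht.le,
          inv_mul_le_iff₀ ht, mul_one]
        exact hz
      · rw [smul_inv_smul₀ ht.ne']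
        ring
  apply Subset.antisymm
  · rw [hset]
    exact Metric.isOpen_thickening.subset_interior_iff.2 (Metric.thickening_subset_cthickening _ _)
  · rw [hM K (Metric.closedBall 0 1) (supp K) (fun _ => 1) t hK hKc hKn
      (isCompact_closedBall _ _) (convex_closedBall _ _) ⟨0, by simp⟩ ht (supp_greatest hK hKn)
      (fun θ => by
        have h1 := supp_greatest (isCompact_closedBall (0 : ℂ) 1) ⟨0, by simp⟩ θ
        rw [supp_ball zero_le_one] at h1
        simpa using h1)]
    intro x hx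
    -- a positive gap
    have hcont : Continuous (fun θ => (supp K θ + t * 1) - (x.re * cos θ + x.im * sin θ)) :=
      ((Pool.Agent.Y220.MK.supp_cont hK (supp_greatest hK hKn)).add continuous_const).sub
        (by fun_prop)
    have hper : ∀ θ, (supp K (θ + 2 * π) + t * 1) -
        (x.re * cos (θ + 2 * π) + x.im * sin (θ + 2 * π)) =
        (supp K θ + t * 1) - (x.re * cos θ + x.im * sin θ) := by
      intro θ
      unfold supp
      simp only [cos_add_two_pi, sin_add_two_pi]
    obtain ⟨m, hm, hmin⟩ := per_min hcont hper (fun θ => sub_pos.2 (hx θ))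
    obtain ⟨δ, hδ⟩ : ∃ δ, δ = min m (t / 2) := ⟨_, rfl⟩
    have hδ0 : 0 < δ := by rw [hδ]; positivity
    have hδ1 : δ ≤ m := by rw [hδ]; exact min_le_left _ _
    have hδ2 : δ ≤ t / 2 := by rw [hδ]; exact min_le_right _ _
    by_contra hcon
    have hcon2 : x ∉ Metric.cthickening (t - δ) K := fun h1 =>
      hcon (Metric.cthickening_subset_thickening' ht (by linarith) _ h1)
    obtain ⟨θ, hθ⟩ := sep (g := fun θ => supp K θ + (t - δ)) (hKc.cthickening _)
      Metric.isClosed_cthickening (fun θ => by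
        obtain ⟨y, hy, hyv⟩ := (supp_greatest hK hKn θ).1
        refine ⟨y + ((t - δ : ℝ) : ℂ) * (cos θ + sin θ * Complex.I), ?_, ?_⟩
        · refine Metric.mem_cthickening_of_dist_le _ y _ _ hy ?_
          rw [dist_eq_norm, add_sub_cancel_left, norm_mul, Complex.norm_real,
            Real.norm_of_nonneg (by linarith), Complex.norm_add_mul_I, Real.cos_sq_add_sin_sq,
            Real.sqrt_one, mul_one]
        · have h3 : (y + ((t - δ : ℝ) : ℂ) * (cos θ + sin θ * Complex.I)).re =
              y.re + (t - δ) * cos θ := by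
            simp [-Complex.ofReal_cos, -Complex.ofReal_sin]
          have h4 : (y + ((t - δ : ℝ) : ℂ) * (cos θ + sin θ * Complex.I)).im =
              y.im + (t - δ) * sin θ := by
            simp [-Complex.ofReal_cos, -Complex.ofReal_sin]
          rw [h3, h4]
          simp only at hyv
          have := Real.cos_sq_add_sin_sq θ
          linear_combination hyv + (t - δ) * this) hcon2
    have h5 := hmin θ
    linarith

theorem par_lines (hA : S_AREA) (hQ : S_QCL) (hF : S_FFS) (hP : S_PS) (hC : S_CNT)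
    (hE : S_ENDG) (hM : S_MINK) (hR : S_RHO) (K : Set ℂ) (hK : IsCompact K)
    (hKc : Convex ℝ K) (hKn : K.Nonempty) (hK2 : ContDiff ℝ 2 (supp K))
    (hball : ∀ (p : ℂ) (r : ℝ), K ≠ Metric.closedBall p r) :
    {t : ℝ | 0 < t ∧ ∃ lam, 0 < lam ∧ Solvable (Metric.thickening t K) lam}.Countable := by
  have hs : supp (Metric.closedBall (0 : ℂ) 1) = fun _ => 1 := by
    funext θ
    rw [supp_ball zero_le_one]
    simp
  refine (mink_lines hA hQ hF hP hC hE hM hR K (Metric.closedBall 0 1) hK hKc hKn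
    (isCompact_closedBall _ _) (convex_closedBall _ _) ⟨0, by simp⟩ hK2
    (by rw [hs]; exact contDiff_const) (by rw [hs]; simp) ?_).mono ?_
  · intro a ha p hcon
    apply hball p a
    rw [hcon]
    ext z
    simp only [mem_ofPred_eq]
    constructor
    · rintro ⟨y, hy, rfl⟩
      rw [mem_closedBall_zero_iff] at hy
      rw [mem_closedBall_iff_norm, add_sub_cancel_left, norm_smul, Real.norm_of_nonneg ha]
      nlinarith
    · intro hz
      rw [mem_closedBall_iff_norm] at hz
      rcases ha.eq_or_lt with h0 | h0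
      · refine ⟨0, by simp, ?_⟩
        rw [← h0] at hz
        have h1 : z - p = 0 := norm_le_zero_iff.1 hz
        rw [sub_eq_zero.1 h1]
        simp
      · refine ⟨a⁻¹ • (z - p), ?_, ?_⟩
        · rw [mem_closedBall_zero_iff, norm_smul, norm_inv, Real.norm_of_nonneg ha,
            inv_mul_le_iff₀ h0, mul_one]
          exact hz
        · rw [smul_inv_smul₀ h0.ne']
          ring
  · rintro t ⟨ht, lam, hlam, hsol⟩
    rw [par_eq hM hK hKc hKn ht] at hsol
    exact ⟨ht, lam, hlam, hsol⟩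

end Pool.Agent.Y278.MK
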